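import Mathlib

/-!
# Counting residue classes with the Chinese remainder theorem
-/

set_option autoImplicit false

open Finset

namespace Pool.Agent.H59.MTP

/-- two coprime moduli -/
theorem crt_card {u v : ℕ} (hu : 1 ≤ u) (hv : 1 ≤ v) (huv : u.Coprime v) (B C : ℕ → Prop)
    [DecidablePred B] [DecidablePred C]
    (hB : ∀ n, B n ↔ B (n % u)) (hC : ∀ n, C n ↔ C (n % v)) :
    ((range (u * v)).filter (fun n => B n ∧ C n)).card =
      ((range u).filter B).card * ((range v).filter C).card := by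
  rw [← card_product]
  refine card_bij (fun n _ => (n % u, n % v)) ?_ ?_ ?_
  · intro n hn
    rw [mem_filter] at hn
    rw [mem_product, mem_filter, mem_filter, mem_range, mem_range]
    exact ⟨⟨Nat.mod_lt _ hu, (hB n).1 hn.2.1⟩, ⟨Nat.mod_lt _ hv, (hC n).1 hn.2.2⟩⟩
  · intro n hn n' hn' h
    rw [mem_filter, mem_range] at hn hn'
    have h1 : n % u = n' % u := (Prod.ext_iff.1 h).1
    have h2 : n % v = n' % v := (Prod.ext_iff.1 h).2
    have h3 : n ≡ n' [MOD u * v] := (Nat.modEq_and_modEq_iff_modEq_mul huv).1 ⟨h1, h2⟩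
    exact Nat.ModEq.eq_of_lt_of_lt h3 hn.1 hn'.1
  · rintro ⟨a, b⟩ hab
    rw [mem_product, mem_filter, mem_filter, mem_range, mem_range] at hab
    obtain ⟨⟨ha, hBa⟩, ⟨hb, hCb⟩⟩ := hab
    obtain ⟨k, hk1, hk2, hlt⟩ : ∃ k, k ≡ a [MOD u] ∧ k ≡ b [MOD v] ∧ k < u * v :=
      ⟨_, (Nat.chineseRemainder huv a b).2.1, (Nat.chineseRemainder huv a b).2.2,
        Nat.chineseRemainder_lt_mul huv a b (by omega) (by omega)⟩
    have h1 : k % u = a := by
      unfold Nat.ModEq at hk1
      rwa [Nat.mod_eq_of_lt ha] at hk1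
    have h2 : k % v = b := by
      unfold Nat.ModEq at hk2
      rwa [Nat.mod_eq_of_lt hb] at hk2
    refine ⟨k, ?_, ?_⟩
    · rw [mem_filter, mem_range]
      refine ⟨hlt, (hB _).2 ?_, (hC _).2 ?_⟩
      · rw [h1]; exact hBa
      · rw [h2]; exact hCb
    · exact Prod.ext h1 h2

/-- a family of pairwise coprime moduli -/
theorem crt_prod {α : Type*} [DecidableEq α] (T : Finset α) (f : α → ℕ)
    (hf : ∀ a ∈ T, 1 ≤ f a)
    (hc : ∀ a ∈ T, ∀ b ∈ T, a ≠ b → (f a).Coprime (f b)) (B : α → ℕ → Prop)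
    [∀ a, DecidablePred (B a)] (hB : ∀ a ∈ T, ∀ n, B a n ↔ B a (n % f a)) :
    ((range (∏ a ∈ T, f a)).filter (fun n => ∀ a ∈ T, B a n)).card =
      ∏ a ∈ T, ((range (f a)).filter (B a)).card := by
  induction T using Finset.induction_on with
  | empty => simp
  | insert a T ha ih =>
    have h1 : ((range (∏ b ∈ insert a T, f b)).filter (fun n => ∀ b ∈ insert a T, B b n)) =
        ((range (f a * ∏ b ∈ T, f b)).filter (fun n => B a n ∧ ∀ b ∈ T, B b n)) := by
      rw [prod_insert ha]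
      refine filter_congr fun n _ => ?_
      rw [forall_mem_insert]
    rw [h1, prod_insert ha]
    rw [crt_card (hf a (mem_insert_self a T))
      (Nat.one_le_iff_ne_zero.2 (prod_ne_zero_iff.2 fun b hb =>
        Nat.one_le_iff_ne_zero.1 (hf b (mem_insert_of_mem hb))))
      (Nat.Coprime.prod_right fun b hb => hc a (mem_insert_self a T) b (mem_insert_of_mem hb)
        (fun h => ha (h ▸ hb)))
      (B a) (fun n => ∀ b ∈ T, B b n) (hB a (mem_insert_self a T)) ?_]
    · rw [ih (fun b hb => hf b (mem_insert_of_mem hb))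
        (fun b hb b' hb' => hc b (mem_insert_of_mem hb) b' (mem_insert_of_mem hb'))
        (fun b hb => hB b (mem_insert_of_mem hb))]
    · intro n
      refine forall₂_congr fun b hb => ?_
      rw [hB b (mem_insert_of_mem hb) n, hB b (mem_insert_of_mem hb) (n % ∏ b ∈ T, f b),
        Nat.mod_mod_of_dvd _ (dvd_prod_of_mem f hb)]

/-- one residue -/
theorem card_dvd_add {m : ℕ} (hm : 1 ≤ m) (c : ℕ) :
    ((range m).filter (fun n => m ∣ n + c)).card = 1 := by
  rw [card_eq_one]
  refine ⟨(m - c % m) % m, ?_⟩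
  ext n
  rw [mem_filter, mem_range, mem_singleton]
  have hc := Nat.mod_lt c hm
  have h0 : m ∣ (m - c % m) % m + c := by
    rw [Nat.dvd_iff_mod_eq_zero, Nat.add_mod, Nat.mod_mod, ← Nat.add_mod]
    have h1 : m - c % m + c = m * (1 + c / m) := by
      have := Nat.div_add_mod c m
      rw [mul_add, mul_one]
      omega
    rw [h1, Nat.mul_mod_right]
  constructor
  · rintro ⟨hn, hd⟩
    have h2 : n + c ≡ (m - c % m) % m + c [MOD m] :=
      ((Nat.modEq_zero_iff_dvd).2 hd).trans ((Nat.modEq_zero_iff_dvd).2 h0).symm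
    exact Nat.ModEq.eq_of_lt_of_lt (Nat.ModEq.add_right_cancel' c h2) hn (Nat.mod_lt _ hm)
  · rintro rfl
    exact ⟨Nat.mod_lt _ hm, h0⟩

theorem card_modEq {W : ℕ} (hW : 1 ≤ W) :
    ((range W).filter (fun n => n ≡ 1 [MOD W])).card = 1 := by
  rw [card_eq_one]
  refine ⟨1 % W, ?_⟩
  ext n
  rw [mem_filter, mem_range, mem_singleton]
  constructor
  · rintro ⟨hn, hd⟩
    unfold Nat.ModEq at hd
    rwa [Nat.mod_eq_of_lt hn] at hd
  · rintro rfl
    exact ⟨Nat.mod_lt _ hW, Nat.mod_mod _ _⟩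

theorem dvd_add_mod {m n c : ℕ} : m ∣ n + c ↔ m ∣ n % m + c := by
  rw [Nat.dvd_iff_mod_eq_zero, Nat.dvd_iff_mod_eq_zero, Nat.mod_add_mod]

/-- the totient of a product of pairwise coprime numbers -/
theorem totient_prod {α : Type*} [DecidableEq α] (T : Finset α) (f : α → ℕ)
    (hc : ∀ a ∈ T, ∀ b ∈ T, a ≠ b → (f a).Coprime (f b)) :
    (∏ a ∈ T, f a).totient = ∏ a ∈ T, (f a).totient := by
  induction T using Finset.induction_on with
  | empty => simp
  | insert a T ha ih =>
    rw [prod_insert ha, prod_insert ha, Nat.totient_mul (Nat.Coprime.prod_right fun b hb =>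
      hc a (mem_insert_self a T) b (mem_insert_of_mem hb) (fun h => ha (h ▸ hb))),
      ih (fun b hb b' hb' => hc b (mem_insert_of_mem hb) b' (mem_insert_of_mem hb'))]

/-- a set of residues of period `q`: fibres -/
theorem sum_fibre (q : ℕ) (hq : 1 ≤ q) (s : Finset ℕ) (P : ℕ → Prop) [DecidablePred P]
    (hP : ∀ n, P n ↔ P (n % q)) (F : ℕ → ℝ) :
    ∑ n ∈ s.filter P, F n =
      ∑ a ∈ (range q).filter P, ∑ n ∈ s.filter (fun n => n ≡ a [MOD q]), F n := by
  rw [← sum_fiberwise_of_maps_to (s := s.filter P) (t := (range q).filter P)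
    (g := fun n => n % q)]
  · refine sum_congr rfl fun a ha => ?_
    rw [filter_filter]
    refine sum_congr ?_ fun _ _ => rfl
    rw [mem_filter, mem_range] at ha
    refine filter_congr fun n _ => ?_
    unfold Nat.ModEq
    rw [Nat.mod_eq_of_lt ha.1]
    refine ⟨fun h => h.2, fun h => ⟨?_, h⟩⟩
    rw [hP, h]
    exact ha.2
  · intro n hn
    rw [mem_filter] at hn
    rw [mem_filter, mem_range]
    exact ⟨Nat.mod_lt _ hq, (hP n).1 hn.2⟩

end Pool.Agent.H59.MTP
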