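import Pool.Agent.H31.MP.Targets2
import Pool.Agent.H59.MTP.CRT

/-!
# Board mtp_modules, row INT
-/

set_option autoImplicit false

open Finset

namespace Pool.Agent.H59.MTP

open Pool.Agent.H31.MP

/-- the number of residue classes -/
theorem res_card {K : ℕ} (h : Fin K → ℕ) (W : ℕ) (s : Finset ℕ) (m : Fin K → ℕ) (hW : 1 ≤ W)
    (hs : ∀ p ∈ s, p.Prime ∧ ¬ p ∣ W)
    (hm : ∀ i, 1 ≤ m i ∧ (m i).Coprime W ∧ ∀ p ∈ s, ¬ p ∣ m i)
    (hmc : ∀ i j, i ≠ j → (m i).Coprime (m j)) (D : ℕ → ℕ → Prop) [∀ p, DecidablePred (D p)]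
    (hD : ∀ p ∈ s, ∀ n, D p n ↔ D p (n % p)) :
    ((range (W * (∏ p ∈ s, p) * ∏ i, m i)).filter (fun n => n ≡ 1 [MOD W] ∧
      (∀ p ∈ s, D p n) ∧ ∀ i, m i ∣ n + h i)).card = ∏ p ∈ s, ((range p).filter (D p)).card := by
  classical
  have hsW : W.Coprime (∏ p ∈ s, p) := Nat.Coprime.prod_right fun p hp =>
    ((Nat.Prime.coprime_iff_not_dvd (hs p hp).1).2 (hs p hp).2).symm
  have hWM : W.Coprime (∏ i, m i) := Nat.Coprime.prod_right fun i _ => (hm i).2.1.symm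
  have hsM : (∏ p ∈ s, p).Coprime (∏ i, m i) := Nat.Coprime.prod_left fun p hp =>
    Nat.Coprime.prod_right fun i _ =>
      (Nat.Prime.coprime_iff_not_dvd (hs p hp).1).2 ((hm i).2.2 p hp)
  have hP1 : 1 ≤ ∏ p ∈ s, p := Nat.one_le_iff_ne_zero.2 (prod_ne_zero_iff.2 fun p hp =>
    (hs p hp).1.ne_zero)
  have hM1 : 1 ≤ ∏ i, m i := Nat.one_le_iff_ne_zero.2 (prod_ne_zero_iff.2 fun i _ =>
    Nat.one_le_iff_ne_zero.1 (hm i).1)
  have hBW : ∀ n, n ≡ 1 [MOD W] ↔ n % W ≡ 1 [MOD W] := by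
    intro n
    unfold Nat.ModEq
    rw [Nat.mod_mod]
  have hBP : ∀ n, (∀ p ∈ s, D p n) ↔ ∀ p ∈ s, D p (n % ∏ p ∈ s, p) := by
    intro n
    refine forall₂_congr fun p hp => ?_
    rw [hD p hp n, hD p hp (n % ∏ p ∈ s, p), Nat.mod_mod_of_dvd _ (dvd_prod_of_mem _ hp)]
  have hBM : ∀ n, (∀ i, m i ∣ n + h i) ↔ ∀ i, m i ∣ (n % ∏ i, m i) + h i := by
    intro n
    refine forall_congr' fun i => ?_
    rw [dvd_add_mod, dvd_add_mod (n := n % ∏ i, m i),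
      Nat.mod_mod_of_dvd _ (dvd_prod_of_mem m (mem_univ i))]
  have e0 : ((range (W * (∏ p ∈ s, p) * ∏ i, m i)).filter (fun n => n ≡ 1 [MOD W] ∧
      (∀ p ∈ s, D p n) ∧ ∀ i, m i ∣ n + h i)) =
      ((range (W * (∏ p ∈ s, p) * ∏ i, m i)).filter (fun n => (n ≡ 1 [MOD W] ∧
      (∀ p ∈ s, D p n)) ∧ ∀ i, m i ∣ n + h i)) :=
    filter_congr fun n _ => by rw [and_assoc]
  rw [e0]
  rw [crt_card (Nat.one_le_iff_ne_zero.2 (mul_ne_zero (by omega) (by omega))) hM1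
    (Nat.Coprime.mul_left hWM hsM) (fun n => n ≡ 1 [MOD W] ∧ (∀ p ∈ s, D p n))
    (fun n => ∀ i, m i ∣ n + h i) ?_ hBM]
  · rw [crt_card hW hP1 hsW (fun n => n ≡ 1 [MOD W]) (fun n => ∀ p ∈ s, D p n) hBW hBP]
    rw [card_modEq hW, one_mul]
    have e1 := crt_prod s (fun p => p) (fun p hp => (hs p hp).1.one_le)
      (fun p hp p' hp' hne => (Nat.coprime_primes (hs p hp).1 (hs p' hp').1).2 hne) D hD
    have e2 : ((range (∏ i, m i)).filter (fun n => ∀ i, m i ∣ n + h i)).card = 1 := by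
      have e3 := crt_prod univ m (fun i _ => (hm i).1) (fun i _ j _ hij => hmc i j hij)
        (fun i n => m i ∣ n + h i) (fun i _ n => dvd_add_mod)
      have e5 : ∏ i, ((range (m i)).filter (fun n => m i ∣ n + h i)).card = 1 :=
        prod_eq_one fun i _ => card_dvd_add (hm i).1 (h i)
      rw [e5] at e3
      rw [← e3]
      congr 1
      ext n
      simp
    rw [e1, e2, mul_one]
  · intro n
    rw [hBW n, hBP n, hBW (n % (W * ∏ p ∈ s, p)), hBP (n % (W * ∏ p ∈ s, p)),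
      Nat.mod_mod_of_dvd _ (dvd_mul_right W _), Nat.mod_mod_of_dvd _ (dvd_mul_left _ W)]

/-- periodicity -/
theorem res_per {K : ℕ} (h : Fin K → ℕ) (W : ℕ) (s : Finset ℕ) (m : Fin K → ℕ)
    (D : ℕ → ℕ → Prop) (hD : ∀ p ∈ s, ∀ n, D p n ↔ D p (n % p)) (n : ℕ) :
    (n ≡ 1 [MOD W] ∧ (∀ p ∈ s, D p n) ∧ ∀ i, m i ∣ n + h i) ↔
      (n % (W * (∏ p ∈ s, p) * ∏ i, m i) ≡ 1 [MOD W] ∧
      (∀ p ∈ s, D p (n % (W * (∏ p ∈ s, p) * ∏ i, m i))) ∧
      ∀ i, m i ∣ n % (W * (∏ p ∈ s, p) * ∏ i, m i) + h i) := by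
  have hdW : W ∣ W * (∏ p ∈ s, p) * ∏ i, m i := (dvd_mul_right _ _).trans (dvd_mul_right _ _)
  have hdp : ∀ p ∈ s, p ∣ W * (∏ p ∈ s, p) * ∏ i, m i := fun p hp =>
    ((dvd_prod_of_mem (fun p => p) hp).trans (dvd_mul_left _ W)).trans (dvd_mul_right _ _)
  have hdm : ∀ i, m i ∣ W * (∏ p ∈ s, p) * ∏ i, m i := fun i =>
    (dvd_prod_of_mem m (mem_univ i)).trans (dvd_mul_left _ _)
  refine and_congr ?_ (and_congr ?_ ?_)
  · unfold Nat.ModEq
    rw [Nat.mod_mod_of_dvd _ hdW]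
  · refine forall₂_congr fun p hp => (hD p hp n).trans ?_
    rw [hD p hp (n % (W * (∏ p ∈ s, p) * ∏ i, m i)), Nat.mod_mod_of_dvd _ (hdp p hp)]
  · refine forall_congr' fun i => dvd_add_mod.trans ?_
    rw [dvd_add_mod (n := n % (W * (∏ p ∈ s, p) * ∏ i, m i)), Nat.mod_mod_of_dvd _ (hdm i)]

theorem dvh_per {K : ℕ} (h : Fin K → ℕ) (p n : ℕ) : dvh h p n ↔ dvh h p (n % p) := by
  unfold dvh
  exact exists_congr fun i => dvd_add_mod

open Classical in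
theorem nu_le {K : ℕ} (h : Fin K → ℕ) {p : ℕ} (hp : 1 ≤ p) : nu h p ≤ K := by
  have h1 : ((range p).filter fun a => ∃ i, p ∣ a + h i) ⊆
      (univ : Finset (Fin K)).biUnion fun i => (range p).filter fun a => p ∣ a + h i := by
    intro a ha
    rw [mem_filter] at ha
    obtain ⟨ha, i, hi⟩ := ha
    rw [mem_biUnion]
    exact ⟨i, mem_univ _, mem_filter.2 ⟨ha, hi⟩⟩
  unfold nu
  refine (card_le_card h1).trans (card_biUnion_le.trans ?_)
  refine le_of_eq ?_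
  rw [sum_congr rfl fun i _ => card_dvd_add hp (h i)]
  simp

/-- the number of elements of one class -/
theorem class_card (N q a : ℕ) (hq : 1 ≤ q) :
    |(((Icc 1 N).filter (fun n => n ≡ a [MOD q])).card : ℝ) - N / q| ≤ 1 := by
  have h1 := Nat.Ioc_filter_modEq_card 0 N (r := q) (by omega) a
  have h2 : (Ioc 0 N) = Icc 1 N := by ext n; simp [Nat.succ_le_iff]
  rw [h2] at h1
  have hqQ : (0 : ℚ) < q := by exact_mod_cast hq
  set x : ℚ := ((N : ℚ) - a) / q with hx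
  set y : ℚ := (((0 : ℕ) : ℚ) - a) / q with hy
  have hxy : x - y = (N : ℚ) / q := by rw [hx, hy]; push_cast; ring
  have hN0 : (0 : ℚ) ≤ (N : ℚ) / q := by positivity
  have hmono : ⌊y⌋ ≤ ⌊x⌋ := Int.floor_le_floor (by linarith)
  rw [max_eq_left (by linarith)] at h1
  have h3 : (((Icc 1 N).filter (fun n => n ≡ a [MOD q])).card : ℚ) =
      (⌊x⌋ : ℚ) - (⌊y⌋ : ℚ) := by
    have := congrArg (fun z : ℤ => (z : ℚ)) h1
    push_cast at this
    exact this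
  have h4 : |(((Icc 1 N).filter (fun n => n ≡ a [MOD q])).card : ℚ) - N / q| ≤ 1 := by
    rw [h3, ← hxy, abs_le]
    have := Int.floor_le x
    have := Int.floor_le y
    have := Int.lt_floor_add_one x
    have := Int.lt_floor_add_one y
    constructor <;> linarith
  have h5 : ((|(((Icc 1 N).filter (fun n => n ≡ a [MOD q])).card : ℚ) - N / q| : ℚ) : ℝ) ≤
      ((1 : ℚ) : ℝ) := by exact_mod_cast h4
  push_cast at h5
  exact h5

theorem pf_INT : T_INT := by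
  classical
  intro K h W N s m hW hs hm hmc
  set q : ℕ := W * (∏ p ∈ s, p) * ∏ i, m i with hq
  have hP1 : 1 ≤ ∏ p ∈ s, p := Nat.one_le_iff_ne_zero.2 (prod_ne_zero_iff.2 fun p hp =>
    (hs p hp).1.ne_zero)
  have hM1 : 1 ≤ ∏ i, m i := Nat.one_le_iff_ne_zero.2 (prod_ne_zero_iff.2 fun i _ =>
    Nat.one_le_iff_ne_zero.1 (hm i).1)
  have hq1 : 1 ≤ q := Nat.one_le_iff_ne_zero.2
    (mul_ne_zero (mul_ne_zero (by omega) (by omega)) (by omega))
  set A : ℕ → Prop := fun n => n ≡ 1 [MOD W] ∧ (∀ p ∈ s, dvh h p n) ∧ ∀ i, m i ∣ n + h i with hA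
  have hAper : ∀ n, A n ↔ A (n % q) := fun n =>
    res_per h W s m (fun p n => dvh h p n) (fun p _ n => dvh_per h p n) n
  have hR : ((range q).filter A).card = ∏ p ∈ s, nu h p := by
    have h1 := res_card h W s m hW hs hm hmc (fun p n => dvh h p n) (fun p _ n => dvh_per h p n)
    convert h1 using 2
    unfold nu dvh
    congr
  have hcount : ((((Icc 1 N).filter A).card : ℕ) : ℝ) =
      ∑ a ∈ (range q).filter A, (((Icc 1 N).filter (fun n => n ≡ a [MOD q])).card : ℝ) := by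
    have h1 := sum_fibre q hq1 (Icc 1 N) A hAper (fun _ => (1 : ℝ))
    simpa using h1
  have hmain : (N : ℝ) / (W * ∏ i, (m i : ℝ)) * ∏ p ∈ s, (nu h p : ℝ) / p =
      ∑ a ∈ (range q).filter A, (N : ℝ) / q := by
    rw [sum_const, nsmul_eq_mul, hR, prod_div_distrib, hq]
    push_cast
    have h1 : (∏ p ∈ s, (p : ℝ)) ≠ 0 := prod_ne_zero_iff.2 fun p hp =>
      Nat.cast_ne_zero.2 (hs p hp).1.ne_zero
    have h2 : (∏ i, (m i : ℝ)) ≠ 0 := prod_ne_zero_iff.2 fun i _ =>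
      Nat.cast_ne_zero.2 (Nat.one_le_iff_ne_zero.1 (hm i).1)
    have h3 : (W : ℝ) ≠ 0 := Nat.cast_ne_zero.2 (by omega)
    field_simp
  rw [hcount, hmain, ← sum_sub_distrib]
  refine (abs_sum_le_sum_abs _ _).trans ((sum_le_sum fun a _ => class_card N q a hq1).trans ?_)
  rw [sum_const, nsmul_eq_mul, mul_one, hR]
  push_cast
  calc ∏ p ∈ s, (nu h p : ℝ) ≤ ∏ _p ∈ s, (K : ℝ) := prod_le_prod (fun _ _ => by positivity)
        fun p hp => by exact_mod_cast nu_le h (hs p hp).1.one_le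
    _ = _ := by rw [prod_const]

end Pool.Agent.H59.MTP
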