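import Pool.Agent.H59.MTP.INT
import Pool.Agent.H58.BV.PM

/-!
# Board mtp_modules, row PRI
-/

set_option autoImplicit false

open Finset ArithmeticFunction
open scoped ArithmeticFunction.vonMangoldt

namespace Pool.Agent.H59.MTP

open Pool.Agent.H31.MP
open Pool.Agent.H30.BV (NX wx WX)
open Pool.Agent.H58.BV (wx_nonneg wx_le pm_pow)

theorem NX_ge (X : ℝ) : 3 * X ≤ NX X := Nat.le_ceil _

theorem wx_small {X : ℝ} (hX : 0 < X) {n : ℕ} (hn : (n : ℝ) ≤ X / 20) : wx X n = 0 := by
  unfold wx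
  rcases Nat.eq_zero_or_pos n with h | h
  · subst h; simp
  · rw [Pool.Agent.H27.LS.hat_log_eq_zero_of_le hX (by exact_mod_cast h) (by linarith), mul_zero]

theorem wx_large {X : ℝ} (hX : 0 < X) {n : ℕ} (hn : NX X < n) : wx X n = 0 := by
  unfold wx
  have h1 : (NX X : ℝ) < n := by exact_mod_cast hn
  rw [Pool.Agent.H27.LS.hat_log_eq_zero_of_ge hX (by linarith [NX_ge X]), mul_zero]

/-- shifting the variable -/
theorem sum_shift (N c : ℕ) (G : ℕ → ℝ) (h1 : ∀ m ≤ c, G m = 0) (h2 : ∀ m, N < m → G m = 0) :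
    ∑ n ∈ Icc 1 N, G (n + c) = ∑ m ∈ Icc 1 N, G m := by
  have e1 : ∑ n ∈ Icc 1 N, G (n + c) = ∑ m ∈ Icc (1 + c) (N + c), G m := by
    rw [← map_add_right_Icc, sum_map]
    rfl
  rw [e1]
  have e2 : ∑ m ∈ Icc (1 + c) (N + c), G m = ∑ m ∈ Icc 1 (N + c), G m := by
    refine sum_subset (Icc_subset_Icc (by omega) le_rfl) fun m hm hm' => h1 m ?_
    rw [mem_Icc] at hm hm'
    by_contra h
    exact hm' ⟨by omega, hm.2⟩
  have e3 : ∑ m ∈ Icc 1 N, G m = ∑ m ∈ Icc 1 (N + c), G m := by
    refine sum_subset (Icc_subset_Icc le_rfl (by omega)) fun m hm hm' => h2 m ?_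
    rw [mem_Icc] at hm hm'
    by_contra h
    exact hm' ⟨hm.1, by omega⟩
  rw [e2, e3]

/-- the multiples of a prime -/
theorem sum_prime (X : ℝ) (p : ℕ) (hp : p.Prime) (hN : 1 ≤ NX X) :
    ∑ m ∈ (Icc 1 (NX X)).filter (fun m => p ∣ m), wx X m ≤ Real.log (NX X) := by
  classical
  refine le_trans ?_ (pm_pow p (NX X) hp hN)
  rw [sum_filter]
  refine sum_le_sum fun m _ => ?_
  by_cases hpm : p ∣ m
  · rw [if_pos hpm]
    by_cases hpp : IsPrimePow m
    · obtain ⟨r, k, hr, hk, rfl⟩ := hpp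
      have hr' := hr.nat_prime
      have hpr : p = r := (Nat.prime_dvd_prime_iff_eq hp hr').1 (hp.dvd_of_dvd_pow hpm)
      subst hpr
      rw [if_pos ⟨k, hk, rfl⟩]
      refine (wx_le X _).trans (le_of_eq ?_)
      rw [vonMangoldt_apply_pow hk.ne', vonMangoldt_apply_prime hp]
    · have h1 : wx X m ≤ 0 := by
        refine (wx_le X m).trans (le_of_eq ?_)
        rw [vonMangoldt_apply, if_neg hpp]
      refine h1.trans ?_
      split_ifs
      · exact Real.log_nonneg (by exact_mod_cast hp.one_le)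
      · exact le_rfl
  · rw [if_neg hpm]
    split_ifs
    · exact Real.log_nonneg (by exact_mod_cast hp.one_le)
    · exact le_rfl

theorem log_NX {X : ℝ} (hX : 100 ≤ X) : Real.log (NX X) ≤ 2 * Real.log X := by
  have h1 : (NX X : ℝ) ≤ 3 * X + 1 := (Nat.ceil_lt_add_one (by linarith)).le
  have h0 : (0 : ℝ) < NX X := by linarith [NX_ge X]
  calc Real.log (NX X) ≤ Real.log (X ^ 2) := Real.log_le_log h0 (by nlinarith)
    _ = _ := by rw [Real.log_pow]; push_cast; ring

/-- one reduced class -/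
theorem class_EQ (X : ℝ) (q a : ℕ) (hq : 1 ≤ q) (ha : a.Coprime q) :
    |∑ n ∈ (Icc 1 (NX X)).filter (fun n => n ≡ a [MOD q]), wx X n - WX X / q.totient| ≤
      EQ X q := by
  classical
  have : NeZero q := ⟨by omega⟩
  have h1 : ∑ n ∈ (Icc 1 (NX X)).filter (fun n => n ≡ a [MOD q]), wx X n =
      ∑ n ∈ (Icc 1 (NX X)).filter (fun n : ℕ => (n : ZMod q) = (ZMod.unitOfCoprime a ha : ZMod q)),
        wx X n := by
    refine sum_congr (filter_congr fun n _ => ?_) fun _ _ => rfl
    rw [ZMod.coe_unitOfCoprime, ZMod.natCast_eq_natCast_iff]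
  rw [h1]
  exact le_ciSup (f := fun a : (ZMod q)ˣ => |∑ n ∈ (Icc 1 (NX X)).filter
    (fun n : ℕ => (n : ZMod q) = a), wx X n - WX X / q.totient|)
    (Set.finite_range _).bddAbove (ZMod.unitOfCoprime a ha)

theorem EQ_nonneg (X : ℝ) (q : ℕ) : 0 ≤ EQ X q := Real.iSup_nonneg fun _ => abs_nonneg _


open Classical in
/-- the reduced classes modulo one prime -/
theorem card_red {K : ℕ} (h : Fin K → ℕ) (i₀ : Fin K) {p : ℕ} (hp : 1 ≤ p) :
    (((range p).filter (fun a => dvh h p a ∧ ¬ p ∣ a + h i₀)).card : ℝ) = (nu h p : ℝ) - 1 := by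
  have h1 : nu h p = ((range p).filter (fun a => dvh h p a)).card := by
    unfold nu dvh
    congr
  have h2 := card_filter_add_card_filter_not (s := (range p).filter (fun a => dvh h p a))
    (fun a => p ∣ a + h i₀)
  rw [filter_filter, filter_filter] at h2
  have h3 : (range p).filter (fun a => dvh h p a ∧ p ∣ a + h i₀) =
      (range p).filter (fun a => p ∣ a + h i₀) := by
    refine filter_congr fun a _ => ⟨fun h => h.2, fun h => ⟨⟨i₀, h⟩, h⟩⟩
  rw [h3, card_dvd_add hp] at h2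
  rw [h1, ← h2]
  push_cast
  ring

theorem pf_PRI : T_PRI := by
  classical
  intro K h i₀ W X s m hX hW hs hm hmc hm0 hWh hmh hhX
  have hX0 : 0 < X := by linarith
  set c : ℕ := h i₀ with hc
  set q : ℕ := W * (∏ p ∈ s, p) * ∏ i, m i with hq
  set N : ℕ := NX X with hN
  have hN1 : 1 ≤ N := by
    have h1 : (1 : ℝ) ≤ N := by linarith [NX_ge X]
    exact_mod_cast h1
  have hsW : W.Coprime (∏ p ∈ s, p) := Nat.Coprime.prod_right fun p hp =>
    ((Nat.Prime.coprime_iff_not_dvd (hs p hp).1).2 (hs p hp).2).symm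
  have hWM : W.Coprime (∏ i, m i) := Nat.Coprime.prod_right fun i _ => (hm i).2.1.symm
  have hsM : (∏ p ∈ s, p).Coprime (∏ i, m i) := Nat.Coprime.prod_left fun p hp =>
    Nat.Coprime.prod_right fun i _ =>
      (Nat.Prime.coprime_iff_not_dvd (hs p hp).1).2 ((hm i).2.2 p hp)
  have hP1 : 1 ≤ ∏ p ∈ s, p := Nat.one_le_iff_ne_zero.2 (prod_ne_zero_iff.2 fun p hp =>
    (hs p hp).1.ne_zero)
  have hM1 : 1 ≤ ∏ i, m i := Nat.one_le_iff_ne_zero.2 (prod_ne_zero_iff.2 fun i _ =>
    Nat.one_le_iff_ne_zero.1 (hm i).1)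
  have hq1 : 1 ≤ q := Nat.one_le_iff_ne_zero.2
    (mul_ne_zero (mul_ne_zero (by omega) (by omega)) (by omega))
  set A : ℕ → Prop := fun n => n ≡ 1 [MOD W] ∧ (∀ p ∈ s, dvh h p n) ∧ ∀ i, m i ∣ n + h i with hA
  set U : ℕ → Prop := fun n => n ≡ 1 [MOD W] ∧ (∀ p ∈ s, (dvh h p n ∧ ¬ p ∣ n + c)) ∧
    ∀ i, m i ∣ n + h i with hU
  have hDper : ∀ p ∈ s, ∀ n, (dvh h p n ∧ ¬ p ∣ n + c) ↔
      (dvh h p (n % p) ∧ ¬ p ∣ n % p + c) := by
    intro p _ n
    rw [← dvh_per h p n, ← dvd_add_mod]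
  have hUper : ∀ n, U n ↔ U (n % q) := fun n =>
    res_per h W s m (fun p n => dvh h p n ∧ ¬ p ∣ n + c) hDper n
  have hUA : ∀ n, U n → A n := fun n hn => ⟨hn.1, fun p hp => (hn.2.1 p hp).1, hn.2.2⟩
  have hR : (((range q).filter U).card : ℝ) = ∏ p ∈ s, ((nu h p : ℝ) - 1) := by
    have h1 := res_card h W s m hW hs hm hmc (fun p n => dvh h p n ∧ ¬ p ∣ n + c) hDper
    have h2 : ((range q).filter U).card =
        ∏ p ∈ s, ((range p).filter (fun a => dvh h p a ∧ ¬ p ∣ a + c)).card := by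
      convert h1 using 2
    rw [h2]
    push_cast
    exact prod_congr rfl fun p hp => card_red h i₀ (hs p hp).1.one_le
  -- the reduced classes
  have hcop : ∀ a, U a → (a + c).Coprime q := by
    intro a ha
    obtain ⟨h1, h2, h3⟩ := ha
    have hc1 : (a + c).Coprime W := by
      have h4 : a + c ≡ 1 [MOD W] := by
        have h5 := h1.add ((Nat.modEq_zero_iff_dvd).2 hWh)
        simpa using h5
      have h6 := h4.gcd_eq
      rw [Nat.gcd_one_left] at h6
      exact h6
    have hc2 : (a + c).Coprime (∏ p ∈ s, p) := Nat.Coprime.prod_right fun p hp =>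
      ((Nat.Prime.coprime_iff_not_dvd (hs p hp).1).2 (h2 p hp).2).symm
    have hc3 : (a + c).Coprime (∏ i, m i) := Nat.Coprime.prod_right fun j _ => by
      by_cases hj : j = i₀
      · rw [hj, hm0]; exact Nat.coprime_one_right _
      · have h4 := hmh j hj
        have h5 := h3 j
        set g := Nat.gcd (a + c) (m j) with hg
        have hg1 : g ∣ a + c := Nat.gcd_dvd_left _ _
        have hg2 : g ∣ m j := Nat.gcd_dvd_right _ _
        have hg3 : (g : ℤ) ∣ (h i₀ : ℤ) - h j := by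
          have h6 : (g : ℤ) ∣ ((a + c : ℕ) : ℤ) := Int.natCast_dvd_natCast.2 hg1
          have h7 : (g : ℤ) ∣ ((a + h j : ℕ) : ℤ) := Int.natCast_dvd_natCast.2 (hg2.trans h5)
          have h8 := dvd_sub h6 h7
          push_cast at h8
          have h9 : (a : ℤ) + (c : ℤ) - ((a : ℤ) + (h j : ℤ)) = (h i₀ : ℤ) - h j := by
            rw [hc]; ring
          rwa [h9] at h8
        have hg4 : g ∣ ((h i₀ : ℤ) - h j).natAbs := Int.natCast_dvd.1 hg3
        have hg5 := Nat.dvd_gcd hg2 hg4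
        rw [Nat.Coprime.gcd_eq_one h4] at hg5
        exact Nat.dvd_one.1 hg5
    rw [hq]
    exact (hc1.mul_right hc2).mul_right hc3
  -- splitting
  have hsplit : ∑ n ∈ (Icc 1 N).filter A, wx X (n + c) =
      ∑ n ∈ (Icc 1 N).filter U, wx X (n + c) +
        ∑ n ∈ ((Icc 1 N).filter A).filter (fun n => ¬ U n), wx X (n + c) := by
    rw [← sum_filter_add_sum_filter_not ((Icc 1 N).filter A) U]
    congr 1
    rw [filter_filter]
    refine sum_congr (filter_congr fun n _ => ⟨fun h => h.2, fun h => ⟨hUA n h, h⟩⟩) fun _ _ => rfl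
  have hmain : |∑ n ∈ (Icc 1 N).filter U, wx X (n + c) -
      ((range q).filter U).card * (WX X / q.totient)| ≤ ((range q).filter U).card * EQ X q := by
    rw [sum_fibre q hq1 (Icc 1 N) U hUper (fun n => wx X (n + c))]
    rw [← nsmul_eq_mul, ← sum_const, ← sum_sub_distrib, ← nsmul_eq_mul, ← sum_const]
    refine (abs_sum_le_sum_abs _ _).trans (sum_le_sum fun a ha => ?_)
    have hUa : U a := (mem_filter.1 ha).2
    refine le_trans (le_of_eq ?_) (class_EQ X q (a + c) hq1 (hcop a hUa))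
    congr 2
    have e1 := sum_shift N c (fun n => if n ≡ a + c [MOD q] then wx X n else 0) ?_ ?_
    · rw [sum_filter, sum_filter, ← e1]
      refine sum_congr rfl fun n _ => ?_
      have e2 : n + c ≡ a + c [MOD q] ↔ n ≡ a [MOD q] :=
        ⟨fun h => Nat.ModEq.add_right_cancel' c h, fun h => h.add_right c⟩
      simp only [e2]
    · intro n hn
      have : (n : ℝ) ≤ X / 20 := le_trans (by exact_mod_cast hn) hhX
      simp only [wx_small hX0 this, ite_self]
    · intro n hn
      simp only [wx_large hX0 hn, ite_self]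
  have hrest : ∑ n ∈ ((Icc 1 N).filter A).filter (fun n => ¬ U n), wx X (n + c) ≤
      s.card * (2 * Real.log X) := by
    have e1 : ∑ n ∈ ((Icc 1 N).filter A).filter (fun n => ¬ U n), wx X (n + c) ≤
        ∑ n ∈ Icc 1 N, ∑ p ∈ s, if p ∣ n + c then wx X (n + c) else 0 := by
      rw [filter_filter, sum_filter]
      refine sum_le_sum fun n _ => ?_
      have h0 : ∀ p ∈ s, 0 ≤ (if p ∣ n + c then wx X (n + c) else 0) := by
        intro p _
        split_ifs
        · exact wx_nonneg _ _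
        · exact le_rfl
      split_ifs with hn
      · have h1 : ∃ p ∈ s, p ∣ n + c := by
          by_contra hcon
          push Not at hcon
          exact hn.2 ⟨hn.1.1, fun p hp => ⟨hn.1.2.1 p hp, hcon p hp⟩, hn.1.2.2⟩
        obtain ⟨p, hp, hpn⟩ := h1
        have h2 := single_le_sum h0 hp
        rwa [if_pos hpn] at h2
      · exact sum_nonneg h0
    refine e1.trans ?_
    rw [sum_comm]
    have e2 : ∀ p ∈ s, ∑ n ∈ Icc 1 N, (if p ∣ n + c then wx X (n + c) else 0) ≤
        2 * Real.log X := by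
      intro p hp
      have e3 := sum_shift N c (fun n => if p ∣ n then wx X n else 0) ?_ ?_
      · rw [e3, ← sum_filter]
        exact (sum_prime X p (hs p hp).1 hN1).trans (log_NX hX)
      · intro n hn
        have : (n : ℝ) ≤ X / 20 := le_trans (by exact_mod_cast hn) hhX
        simp only [wx_small hX0 this, ite_self]
      · intro n hn
        simp only [wx_large hX0 hn, ite_self]
    refine (sum_le_sum e2).trans (le_of_eq ?_)
    rw [sum_const, nsmul_eq_mul]
  have hrest0 : 0 ≤ ∑ n ∈ ((Icc 1 N).filter A).filter (fun n => ¬ U n), wx X (n + c) :=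
    sum_nonneg fun n _ => wx_nonneg _ _
  have hphi : (q.totient : ℝ) = (W.totient : ℝ) * (∏ p ∈ s, ((p : ℝ) - 1)) *
      ∏ i, ((m i).totient : ℝ) := by
    rw [hq, Nat.totient_mul (Nat.Coprime.mul_left hWM hsM), Nat.totient_mul hsW,
      totient_prod s (fun p => p) (fun p hp p' hp' hne =>
        (Nat.coprime_primes (hs p hp).1 (hs p' hp').1).2 hne),
      totient_prod univ m (fun i _ j _ hij => hmc i j hij)]
    push_cast
    congr 2
    refine prod_congr rfl fun p hp => ?_
    rw [Nat.totient_prime (hs p hp).1, Nat.cast_sub (hs p hp).1.one_le]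
    simp
  have hmaineq : WX X / ((W.totient : ℝ) * ∏ i, ((m i).totient : ℝ)) *
      ∏ p ∈ s, ((nu h p : ℝ) - 1) / ((p : ℝ) - 1) =
      ((range q).filter U).card * (WX X / q.totient) := by
    rw [hR, hphi, prod_div_distrib]
    have h1 : (∏ p ∈ s, ((p : ℝ) - 1)) ≠ 0 := prod_ne_zero_iff.2 fun p hp => by
      have : (2 : ℝ) ≤ p := by exact_mod_cast (hs p hp).1.two_le
      linarith
    have h2 : (∏ i, ((m i).totient : ℝ)) ≠ 0 := prod_ne_zero_iff.2 fun i _ =>
      Nat.cast_ne_zero.2 (Nat.totient_pos.2 (hm i).1).ne'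
    have h3 : (W.totient : ℝ) ≠ 0 := Nat.cast_ne_zero.2 (Nat.totient_pos.2 hW).ne'
    field_simp
  have hK1 : 1 ≤ K := by
    have := i₀.pos
    omega
  have hRle : (((range q).filter U).card : ℝ) ≤ ((K : ℝ) + 1) ^ s.card := by
    rw [hR]
    calc ∏ p ∈ s, ((nu h p : ℝ) - 1) ≤ ∏ _p ∈ s, ((K : ℝ) + 1) := by
          refine prod_le_prod (fun p hp => ?_) fun p hp => ?_
          · rw [← card_red h i₀ (hs p hp).1.one_le]
            exact Nat.cast_nonneg _
          · have : (nu h p : ℝ) ≤ K := by exact_mod_cast nu_le h (hs p hp).1.one_le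
            linarith
      _ = _ := by rw [prod_const]
  have hsle : (s.card : ℝ) ≤ ((K : ℝ) + 1) ^ s.card := by
    have h1 : s.card ≤ 2 ^ s.card := Nat.lt_two_pow_self.le
    have h2 : ((2 : ℕ) : ℝ) ^ s.card ≤ ((K : ℝ) + 1) ^ s.card := by
      refine pow_le_pow_left₀ (by positivity) ?_ _
      have : (1 : ℝ) ≤ K := by exact_mod_cast hK1
      push_cast
      linarith
    exact le_trans (by exact_mod_cast h1) h2
  have hlog : 0 ≤ 2 * Real.log X := by
    have := Real.log_nonneg (by linarith : (1 : ℝ) ≤ X)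
    linarith
  have hgoal : |∑ n ∈ (Icc 1 N).filter A, wx X (n + c) -
      ((range q).filter U).card * (WX X / q.totient)| ≤
      ((K : ℝ) + 1) ^ s.card * (EQ X q + 2 * Real.log X) := by
    rw [hsplit]
    calc |∑ n ∈ (Icc 1 N).filter U, wx X (n + c) +
        ∑ n ∈ ((Icc 1 N).filter A).filter (fun n => ¬ U n), wx X (n + c) -
        ((range q).filter U).card * (WX X / q.totient)|
        ≤ |∑ n ∈ (Icc 1 N).filter U, wx X (n + c) -
          ((range q).filter U).card * (WX X / q.totient)| +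
          |∑ n ∈ ((Icc 1 N).filter A).filter (fun n => ¬ U n), wx X (n + c)| := by
          refine le_trans (le_of_eq ?_) (abs_add_le _ _)
          congr 1
          ring
      _ ≤ ((range q).filter U).card * EQ X q + s.card * (2 * Real.log X) := by
          rw [abs_of_nonneg hrest0]
          exact add_le_add hmain hrest
      _ ≤ ((K : ℝ) + 1) ^ s.card * EQ X q + ((K : ℝ) + 1) ^ s.card * (2 * Real.log X) :=
          add_le_add (mul_le_mul_of_nonneg_right hRle (EQ_nonneg X q))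
            (mul_le_mul_of_nonneg_right hsle hlog)
      _ = _ := by ring
  rw [hmaineq]
  convert hgoal using 3

end Pool.Agent.H59.MTP
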